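import Mathlib
import Pool.Agent.Y249.SU.Raj
import Pool.Agent.Y967.MU.BUMP

/-! # Sets with a vanishing binary digit at sparse places are sets of uniqueness -/

set_option autoImplicit false

open MeasureTheory Filter Topology
open scoped Pointwise

namespace Pool.Agent.N245.UN

open Pool.Agent.Y249.SU

/-- The points of `[0,1]` whose binary digit number `a k + 1` may be chosen to be `0`, for all `k`. -/
def KK (a : ℕ → ℕ) : Set ℝ :=
  {x | x ∈ Set.Icc (0 : ℝ) 1 ∧ ∀ k, ∃ z : ℤ, (z : ℝ) ≤ 2 ^ (a k) * x ∧ 2 ^ (a k) * x ≤ z + 1 / 2}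

theorem isClosed_half : IsClosed {y : ℝ | ∃ z : ℤ, (z : ℝ) ≤ y ∧ y ≤ z + 1 / 2} := by
  have h1 : IsClosed (Set.range (fun z : ℤ => (z : ℝ)) + Set.Icc (0 : ℝ) (1 / 2)) :=
    (Int.isClosedEmbedding_coe_real.isClosed_range).add_right_of_isCompact isCompact_Icc
  convert h1 using 1
  ext y
  simp only [Set.mem_setOf_eq, Set.mem_add, Set.mem_range, Set.mem_Icc]
  constructor
  · rintro ⟨z, h1, h2⟩
    exact ⟨(z : ℝ), ⟨z, rfl⟩, y - z, ⟨by linarith, by linarith⟩, by ring⟩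
  · rintro ⟨_, ⟨z, rfl⟩, t, ⟨h1, h2⟩, rfl⟩
    exact ⟨z, by linarith, by linarith⟩

theorem isClosed_KK (a : ℕ → ℕ) : IsClosed (KK a) := by
  have : KK a = Set.Icc (0 : ℝ) 1 ∩ ⋂ k, (fun x : ℝ => 2 ^ (a k) * x) ⁻¹'
      {y : ℝ | ∃ z : ℤ, (z : ℝ) ≤ y ∧ y ≤ z + 1 / 2} := by
    ext x
    simp [KK]
  rw [this]
  refine isClosed_Icc.inter (isClosed_iInter fun k => ?_)
  exact isClosed_half.preimage (by fun_prop)

theorem KK_subset (a : ℕ → ℕ) : KK a ⊆ Set.Icc (0 : ℝ) 1 := fun _ hx => hx.1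

theorem lam_int_add (γ : ℤ → ℂ) (x : ℝ) (m : ℤ) : lam γ ((m : ℝ) + x) = lam γ x := by
  unfold lam
  apply tsum_congr
  intro j
  congr 1
  have : E j (m : ℝ) = 1 := by
    rw [E]
    have : (2 * (Real.pi : ℂ) * Complex.I * (j : ℂ) * ((m : ℝ) : ℂ)) =
        ((j * m : ℤ) : ℂ) * (2 * Real.pi * Complex.I) := by
      push_cast
      ring
    rw [this, Complex.exp_int_mul_two_pi_mul_I]
  rw [Pool.Agent.Y249.SU.E_add, this, one_mul]

theorem uniq {a : ℕ → ℕ} (ha : StrictMono a) {c : ℤ → ℂ}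
    (hc : ∀ x : ℝ, (∀ m : ℤ, x + (m : ℝ) ∉ KK a) →
      Tendsto (fun N : ℕ => ∑ n ∈ Finset.Icc (-(N:ℤ)) (N:ℤ),
        c n * Complex.exp (2 * (Real.pi:ℂ) * Complex.I * (n:ℂ) * (x:ℂ))) atTop (𝓝 0)) (n : ℤ) :
    c n = 0 := by
  obtain ⟨γ, hγ, hγ0, hγz⟩ := Pool.Agent.Y967.MU.BUMP.t_BUMP (1 / 2) 1 (by norm_num) (by norm_num)
    (by norm_num)
  have hM : Tendsto (fun k => ((2 ^ (a k) : ℕ) : ℤ)) atTop atTop := by
    have h1 : Tendsto (fun k => (2 ^ (a k) : ℕ)) atTop atTop :=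
      (tendsto_pow_atTop_atTop_of_one_lt (by norm_num : (1 : ℕ) < 2)).comp ha.tendsto_atTop
    exact tendsto_natCast_atTop_atTop.comp h1
  have hp : (0 : ℝ) < 2 ^ (a 0) := by positivity
  refine uniqueness (K := KK a) hM hγ hγ0 ?_ (a := 1 / 2 / 2 ^ (a 0)) (b := 1 / 2 ^ (a 0)) ?_ ?_ hc n
  · intro x hx k
    obtain ⟨z, h1, h2⟩ := hx.2 k
    have h3 : (((2 ^ (a k) : ℕ) : ℤ) : ℝ) * x = (z : ℝ) + (2 ^ (a k) * x - z) := by
      push_cast
      ring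
    rw [h3, lam_int_add]
    apply hγz
    · constructor <;> linarith
    · intro h
      linarith [h.1]
  · apply div_lt_div_of_pos_right _ hp
    norm_num
  · rintro x ⟨hx1, hx2⟩ m hm
    rw [div_lt_iff₀ hp] at hx1
    rw [lt_div_iff₀ hp] at hx2
    obtain ⟨z, h1, h2⟩ := hm.2 0
    have h4 : (2 : ℝ) ^ (a 0) * (x + m) = x * 2 ^ (a 0) + (((2 ^ (a 0) : ℕ) * m : ℤ) : ℝ) := by
      push_cast
      ring
    rw [h4] at h1 h2
    have h5 : z - (2 ^ (a 0) : ℕ) * m < 1 := by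
      have : ((z - (2 ^ (a 0) : ℕ) * m : ℤ) : ℝ) < 1 := by
        push_cast at h1 ⊢
        linarith
      exact_mod_cast this
    have h6 : 0 < z - (2 ^ (a 0) : ℕ) * m := by
      have : (0 : ℝ) < ((z - (2 ^ (a 0) : ℕ) * m : ℤ) : ℝ) := by
        push_cast at h2 ⊢
        linarith
      exact_mod_cast this
    omega

end Pool.Agent.N245.UN
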