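import Mathlib
import Pool.Agent.N245.UN.Uniq
import Pool.Agent.H534R3.UD

/-! # The natural measure: random binary digits off a sparse set of places -/

set_option autoImplicit false

open MeasureTheory Filter Topology ProbabilityTheory
open scoped ENNReal

namespace Pool.Agent.N245.UN

open Pool.Agent.H534R3.UDist

/-- The fair coin. -/
noncomputable def coin : Measure Bool := (2⁻¹ : ℝ≥0∞) • (Measure.dirac true + Measure.dirac false)

instance : IsProbabilityMeasure coin := by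
  constructor
  simp only [coin, Measure.smul_apply, Measure.add_apply, measure_univ, smul_eq_mul]
  rw [one_add_one_eq_two]
  exact ENNReal.inv_mul_cancel (by norm_num) (by norm_num)

theorem coin_singleton (b : Bool) : coin {b} = 2⁻¹ := by
  cases b <;> simp [coin]

theorem integral_coin (f : Bool → ℂ) : ∫ b, f b ∂coin = (f true + f false) / 2 := by
  rw [coin, integral_smul_measure, integral_add_measure, integral_dirac, integral_dirac]
  · simp
    ring
  · exact (integrable_dirac (by simp))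
  · exact (integrable_dirac (by simp))

/-- Infinitely many fair coins. -/
noncomputable def Pm : Measure (ℕ → Bool) := Measure.infinitePi (fun _ => coin)

instance : IsProbabilityMeasure Pm := by unfold Pm; infer_instance

variable (A : Set ℕ)

open Classical in
/-- The digits. -/
noncomputable def dg (ω : ℕ → Bool) (i : ℕ) : ℕ := if i ∈ A then 0 else (if ω i then 1 else 0)

theorem dg_le (ω : ℕ → Bool) (i : ℕ) : dg A ω i ≤ 1 := by
  unfold dg
  split_ifs <;> simp

theorem dg_of_mem {i : ℕ} (hi : i ∈ A) (ω : ℕ → Bool) : dg A ω i = 0 := by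
  unfold dg
  rw [if_pos hi]

/-- The integer with the first `n` digits. -/
noncomputable def Z (ω : ℕ → Bool) : ℕ → ℕ
  | 0 => 0
  | (n + 1) => 2 * Z ω n + dg A ω n

/-- The partial sums. -/
noncomputable def Xn (n : ℕ) (ω : ℕ → Bool) : ℝ := ∑ i ∈ Finset.range n, (dg A ω i : ℝ) / 2 ^ (i + 1)

/-- The random point. -/
noncomputable def X (ω : ℕ → Bool) : ℝ := ∑' i, (dg A ω i : ℝ) / 2 ^ (i + 1)

theorem Xn_eq (n : ℕ) (ω : ℕ → Bool) : Xn A n ω = (Z A ω n : ℝ) / 2 ^ n := by
  induction n with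
  | zero => simp [Xn, Z]
  | succ n ih =>
    unfold Xn at ih ⊢
    rw [Finset.sum_range_succ, ih, Z]
    push_cast
    field_simp
    ring

theorem hasSum_geo (n : ℕ) : HasSum (fun i : ℕ => (1 : ℝ) / 2 ^ (i + n + 1)) (1 / 2 ^ n) := by
  have h := (hasSum_geometric_two' ((1 : ℝ) / 2 ^ n))
  convert h using 2
  rw [pow_add, pow_add]
  field_simp

theorem summable_dg (ω : ℕ → Bool) : Summable fun i => (dg A ω i : ℝ) / 2 ^ (i + 1) := by
  refine Summable.of_nonneg_of_le (fun i => by positivity) (fun i => ?_) (hasSum_geo 0).summable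
  have : (dg A ω i : ℝ) ≤ 1 := by exact_mod_cast dg_le A ω i
  rw [add_zero]
  gcongr

theorem Xn_le (n : ℕ) (ω : ℕ → Bool) : Xn A n ω ≤ X A ω :=
  (summable_dg A ω).sum_le_tsum _ (fun i _ => by positivity)

theorem X_le (n : ℕ) (ω : ℕ → Bool) : X A ω ≤ Xn A n ω + 1 / 2 ^ n := by
  have h1 := (summable_dg A ω).sum_add_tsum_nat_add n
  have h2 : ∑' i, (dg A ω (i + n) : ℝ) / 2 ^ (i + n + 1) ≤ 1 / 2 ^ n := by
    rw [← (hasSum_geo n).tsum_eq]
    refine Summable.tsum_le_tsum (fun i => ?_) ((summable_nat_add_iff n).2 (summable_dg A ω))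
      (hasSum_geo n).summable
    have : (dg A ω (i + n) : ℝ) ≤ 1 := by exact_mod_cast dg_le A ω (i + n)
    gcongr
  unfold X
  rw [← h1]
  unfold Xn
  linarith

theorem Z_le (n : ℕ) (ω : ℕ → Bool) : (Z A ω n : ℝ) ≤ 2 ^ n * X A ω := by
  have h1 := Xn_le A n ω
  rw [Xn_eq] at h1
  rw [div_le_iff₀ (by positivity)] at h1
  linarith

theorem le_Z (n : ℕ) (ω : ℕ → Bool) : 2 ^ n * X A ω ≤ Z A ω n + 1 := by
  have h1 := X_le A n ω
  rw [Xn_eq] at h1
  have h2 : (0 : ℝ) < 2 ^ n := by positivity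
  calc 2 ^ n * X A ω ≤ 2 ^ n * ((Z A ω n : ℝ) / 2 ^ n + 1 / 2 ^ n) := by gcongr
    _ = _ := by field_simp

theorem X_mem (a : ℕ → ℕ) (ω : ℕ → Bool) : X (Set.range a) ω ∈ KK a := by
  refine ⟨⟨?_, ?_⟩, fun k => ⟨Z (Set.range a) ω (a k), ?_, ?_⟩⟩
  · have := Z_le (Set.range a) 0 ω
    simpa [Z] using this
  · have := le_Z (Set.range a) 0 ω
    simpa [Z] using this
  · have := Z_le (Set.range a) (a k) ω
    exact_mod_cast this
  · have h1 := le_Z (Set.range a) (a k + 1) ω
    rw [Z, dg_of_mem (Set.range a) ⟨k, rfl⟩, pow_succ] at h1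
    push_cast at h1 ⊢
    linarith

theorem measurable_dg (i : ℕ) : Measurable (fun ω => (dg A ω i : ℝ)) := by
  unfold dg
  by_cases hi : i ∈ A
  · simp [hi]
  · simp only [hi, if_false]
    have h1 : Measurable (fun b : Bool => (((if b then 1 else 0 : ℕ)) : ℝ)) := measurable_of_finite _
    exact h1.comp (measurable_pi_apply i)

theorem measurable_Xn (n : ℕ) : Measurable (Xn A n) := by
  unfold Xn
  exact Finset.measurable_sum _ fun i _ => (measurable_dg A i).div_const _

theorem tendsto_Xn (ω : ℕ → Bool) : Tendsto (fun n => Xn A n ω) atTop (𝓝 (X A ω)) :=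
  (summable_dg A ω).hasSum.tendsto_sum_nat

theorem measurable_X : Measurable (X A) :=
  measurable_of_tendsto_metrizable (measurable_Xn A) (tendsto_pi_nhds.2 (tendsto_Xn A))

theorem ee_add (x y : ℝ) : ee (x + y) = ee x * ee y := by
  unfold ee
  rw [← Complex.exp_add]
  congr 1
  push_cast
  ring

theorem ee_zero : ee 0 = 1 := by simp [ee]

theorem continuous_ee : Continuous ee := by unfold ee; fun_prop

theorem ee_sum {ι : Type*} (s : Finset ι) (f : ι → ℝ) : ee (∑ i ∈ s, f i) = ∏ i ∈ s, ee (f i) := by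
  classical
  induction s using Finset.induction_on with
  | empty => simp [ee_zero]
  | insert i s hi ih => rw [Finset.sum_insert hi, Finset.prod_insert hi, ee_add, ih]

open Classical in
/-- The factors of the Fourier transform. -/
noncomputable def fct (ξ : ℝ) (i : ℕ) : ℂ := if i ∈ A then 1 else (ee (ξ / 2 ^ (i + 1)) + 1) / 2

theorem norm_fct_le (ξ : ℝ) (i : ℕ) : ‖fct A ξ i‖ ≤ 1 := by
  unfold fct
  split_ifs
  · simp
  · rw [norm_div]
    have h1 : ‖ee (ξ / 2 ^ (i + 1)) + 1‖ ≤ 2 := by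
      refine (norm_add_le _ _).trans ?_
      rw [norm_ee]
      norm_num
    have h2 : ‖(2 : ℂ)‖ = 2 := by simp
    rw [h2]
    linarith

theorem integral_ee_Xn (ξ : ℝ) (n : ℕ) :
    ∫ ω, ee (ξ * Xn A n ω) ∂Pm = ∏ i ∈ Finset.range n, fct A ξ i := by
  classical
  have hind : iIndepFun (fun (i : Fin n) (ω : ℕ → Bool) =>
      (fun (j : ℕ) (b : Bool) => ee (ξ * (((if j ∈ A then 0 else (if b then 1 else 0) : ℕ) : ℝ) /
        2 ^ (j + 1)))) i.val (ω i.val)) Pm := by
    have h1 := iIndepFun_infinitePi (P := fun _ : ℕ => coin)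
      (X := fun (j : ℕ) (b : Bool) => ee (ξ * (((if j ∈ A then 0 else (if b then 1 else 0) : ℕ) : ℝ) /
        2 ^ (j + 1)))) (fun i => measurable_of_finite _)
    exact h1.precomp (g := fun i : Fin n => i.val) Fin.val_injective
  have h2 := hind.integral_fun_prod_eq_prod_integral (fun i => by
    apply Measurable.aestronglyMeasurable
    exact (measurable_of_finite (fun b : Bool => ee (ξ * (((if i.val ∈ A then 0 else (if b then 1 else 0) : ℕ) : ℝ) /
        2 ^ (i.val + 1))))).comp (measurable_pi_apply i.val))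
  have h3 : ∀ ω : ℕ → Bool, ee (ξ * Xn A n ω) = ∏ i : Fin n,
      (fun (j : ℕ) (b : Bool) => ee (ξ * (((if j ∈ A then 0 else (if b then 1 else 0) : ℕ) : ℝ) /
        2 ^ (j + 1)))) i.val (ω i.val) := by
    intro ω
    rw [Xn, Finset.mul_sum, ee_sum, ← Fin.prod_univ_eq_prod_range (fun i => ee (ξ * ((dg A ω i : ℝ) / 2 ^ (i + 1)))) n]
    rfl
  rw [integral_congr_ae (ae_of_all _ h3), h2,
    ← Fin.prod_univ_eq_prod_range (fun i => fct A ξ i) n]
  apply Finset.prod_congr rfl
  intro i _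
  have h4 : ∫ ω : ℕ → Bool, (fun (j : ℕ) (b : Bool) => ee (ξ * (((if j ∈ A then 0 else (if b then 1 else 0) : ℕ) : ℝ) /
        2 ^ (j + 1)))) i.val (ω i.val) ∂Pm = ∫ b, (fun (j : ℕ) (b : Bool) => ee (ξ * (((if j ∈ A then 0 else (if b then 1 else 0) : ℕ) : ℝ) /
        2 ^ (j + 1)))) i.val b ∂coin := by
    have h5 : Measure.map (fun ω : ℕ → Bool => ω i.val) Pm = coin := by
      unfold Pm
      exact Measure.infinitePi_map_eval (fun _ => coin) i.val
    conv_rhs => rw [← h5]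
    rw [integral_map (measurable_pi_apply i.val).aemeasurable
      (measurable_of_finite _).aestronglyMeasurable]
  rw [h4, integral_coin]
  unfold fct
  by_cases hi : i.val ∈ A
  · simp [hi, ee_zero]
  · simp [hi, ee_zero, div_eq_mul_inv]

theorem tele (ξ : ℝ) {L R : ℕ} (h : L ≤ R) :
    (1 - ee (ξ / 2 ^ R)) * ∏ i ∈ Finset.Ico L R, (ee (ξ / 2 ^ (i + 1)) + 1) = 1 - ee (ξ / 2 ^ L) := by
  induction R, h using Nat.le_induction with
  | base => simp
  | succ R hR ih =>
    rw [Finset.prod_Ico_succ_top hR, ← ih]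
    have h1 : ee (ξ / 2 ^ R) = ee (ξ / 2 ^ (R + 1)) * ee (ξ / 2 ^ (R + 1)) := by
      rw [← ee_add]
      congr 1
      rw [pow_succ]
      field_simp
      ring
    rw [h1]
    ring

theorem norm_one_sub_ee {t : ℝ} (ht : |t| ≤ 1 / 2) : 4 * |t| ≤ ‖1 - ee t‖ := by
  have h1 : ee t = Complex.exp (Complex.I * ((2 * Real.pi * t : ℝ) : ℂ)) := by
    unfold ee
    congr 1
    push_cast
    ring
  rw [norm_sub_rev, h1, Complex.norm_exp_I_mul_ofReal_sub_one]
  have h2 : 2 * Real.pi * t / 2 = Real.pi * t := by ring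
  rw [h2, norm_mul, Real.norm_eq_abs, Real.norm_eq_abs, abs_two]
  have h3 : 2 / Real.pi * (Real.pi * |t|) ≤ Real.sin (Real.pi * |t|) := by
    apply Real.mul_le_sin
    · positivity
    · have := Real.pi_pos
      nlinarith
  have h4 : 2 / Real.pi * (Real.pi * |t|) = 2 * |t| := by
    field_simp
  rw [h4] at h3
  have h5 : |Real.sin (Real.pi * t)| = |Real.sin (Real.pi * |t|)| := by
    rcases abs_cases t with ⟨h, _⟩ | ⟨h, _⟩
    · rw [h]
    · rw [h, mul_neg, Real.sin_neg, abs_neg]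
  rw [h5]
  have := le_abs_self (Real.sin (Real.pi * |t|))
  linarith

theorem fourier_bound {a : ℕ → ℕ} (ha : StrictMono a) (k : ℕ) {ξ : ℝ} (hξ0 : ξ ≠ 0)
    (hξ : |ξ| ≤ 2 ^ (a (k + 1)) / 2) :
    ‖∫ ω, ee (ξ * X (Set.range a) ω) ∂Pm‖ ≤ 2 ^ (a k) / |ξ| := by
  set A := Set.range a with hA
  have hlt : a k < a (k + 1) := ha (Nat.lt_succ_self k)
  -- the finite products
  have hfin : ∀ n, a (k + 1) ≤ n → ‖∫ ω, ee (ξ * Xn A n ω) ∂Pm‖ ≤ 2 ^ (a k) / |ξ| := by
    intro n hn
    rw [integral_ee_Xn, norm_prod]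
    have h1 : ∏ i ∈ Finset.range n, ‖fct A ξ i‖ ≤ ∏ i ∈ Finset.Ico (a k + 1) (a (k + 1)), ‖fct A ξ i‖ := by
      apply Finset.prod_le_prod_of_subset_of_le_one
      · intro i hi
        rw [Finset.mem_Ico] at hi
        exact Finset.mem_range.2 (hi.2.trans_le hn)
      · intro i _
        exact norm_nonneg _
      · intro i _ _
        exact norm_fct_le A ξ i
    refine h1.trans ?_
    have h2 : ∀ i ∈ Finset.Ico (a k + 1) (a (k + 1)), ‖fct A ξ i‖ = ‖ee (ξ / 2 ^ (i + 1)) + 1‖ / 2 := by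
      intro i hi
      rw [Finset.mem_Ico] at hi
      have hni : i ∉ A := by
        rintro ⟨j, rfl⟩
        have h3 : k < j := ha.lt_iff_lt.1 hi.1
        have h4 : j < k + 1 := ha.lt_iff_lt.1 hi.2
        omega
      unfold fct
      rw [if_neg hni, norm_div]
      simp
    rw [Finset.prod_congr rfl h2, Finset.prod_div_distrib, Finset.prod_const, Nat.card_Ico, ← norm_prod]
    have h5 := tele ξ (L := a k + 1) (R := a (k + 1)) hlt
    have h6 : |ξ / 2 ^ (a (k + 1))| ≤ 1 / 2 := by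
      rw [abs_div, abs_of_pos (by positivity : (0 : ℝ) < 2 ^ (a (k + 1)))]
      rw [div_le_iff₀ (by positivity)]
      linarith
    have h7 := norm_one_sub_ee h6
    have h8 : ‖1 - ee (ξ / 2 ^ (a k + 1))‖ ≤ 2 := by
      refine (norm_sub_le _ _).trans ?_
      rw [norm_ee]
      norm_num
    rw [← h5, norm_mul] at h8
    have h9 : 0 < |ξ| := abs_pos.2 hξ0
    have h10 : 4 * |ξ / 2 ^ (a (k + 1))| * ‖∏ i ∈ Finset.Ico (a k + 1) (a (k + 1)), (ee (ξ / 2 ^ (i + 1)) + 1)‖ ≤ 2 :=
      (mul_le_mul_of_nonneg_right h7 (norm_nonneg _)).trans h8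
    rw [abs_div, abs_of_pos (by positivity : (0 : ℝ) < 2 ^ (a (k + 1)))] at h10
    obtain ⟨m, hm⟩ : ∃ m, a (k + 1) = a k + 1 + m := ⟨a (k + 1) - (a k + 1), by omega⟩
    rw [div_le_div_iff₀ (by positivity) h9]
    have h11 : a (k + 1) - (a k + 1) = m := by omega
    rw [h11]
    rw [hm, pow_add, pow_add] at h10
    have h12 : 4 * (|ξ| / (2 ^ a k * 2 ^ 1 * 2 ^ m)) * ‖∏ i ∈ Finset.Ico (a k + 1) (a (k + 1)), (ee (ξ / 2 ^ (i + 1)) + 1)‖
        = 2 * (‖∏ i ∈ Finset.Ico (a k + 1) (a (k + 1)), (ee (ξ / 2 ^ (i + 1)) + 1)‖ * |ξ|) / (2 ^ a k * 2 ^ m) := by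
      field_simp
      ring
    rw [← hm, h12, div_le_iff₀ (by positivity)] at h10
    linarith
  have hlim : Tendsto (fun n => ∫ ω, ee (ξ * Xn A n ω) ∂Pm) atTop (𝓝 (∫ ω, ee (ξ * X A ω) ∂Pm)) := by
    apply tendsto_integral_of_dominated_convergence (fun _ => (1 : ℝ))
    · intro n
      exact (continuous_ee.measurable.comp ((measurable_Xn A n).const_mul ξ)).aestronglyMeasurable
    · exact integrable_const _
    · intro n
      exact ae_of_all _ fun ω => by rw [norm_ee]
    · exact ae_of_all _ fun ω => (continuous_ee.tendsto _).comp ((tendsto_Xn A ω).const_mul ξ)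
  exact le_of_tendsto hlim.norm (eventually_atTop.2 ⟨a (k + 1), hfin⟩)

end Pool.Agent.N245.UN
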