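import Mathlib
import Pool.Agent.N245.UN.Meas

/-! # The natural measure of small sets -/

set_option autoImplicit false

open MeasureTheory Filter Topology ProbabilityTheory
open scoped ENNReal

namespace Pool.Agent.N245.UN

variable (A : Set ℕ)

theorem Z_inj (ω ω' : ℕ → Bool) (n : ℕ) (h : Z A ω n = Z A ω' n) :
    ∀ i < n, dg A ω i = dg A ω' i := by
  induction n with
  | zero => intro i hi; omega
  | succ n ih =>
    rw [Z, Z] at h
    have h1 := dg_le A ω n
    have h2 := dg_le A ω' n
    intro i hi
    rcases Nat.lt_succ_iff_lt_or_eq.1 hi with h3 | h3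
    · exact ih (by omega) i h3
    · rw [h3]
      omega

theorem dg_inj {ω ω' : ℕ → Bool} {i : ℕ} (hi : i ∉ A) (h : dg A ω i = dg A ω' i) : ω i = ω' i := by
  unfold dg at h
  rw [if_neg hi, if_neg hi] at h
  cases h1 : ω i <;> cases h2 : ω' i <;> simp_all

theorem Z_atom {a : ℕ → ℕ} (ha : StrictMono a) {m n : ℕ} (h : n ≤ a m) (v : ℕ) :
    Pm {ω | Z (Set.range a) ω n = v} ≤ ENNReal.ofReal (2 ^ m / 2 ^ n) := by
  classical
  by_cases hne : ({ω | Z (Set.range a) ω n = v} : Set (ℕ → Bool)).Nonempty
  · obtain ⟨ω0, hω0⟩ := hne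
    have hω0' : Z (Set.range a) ω0 n = v := hω0
    set s := (Finset.range n).filter (fun i => i ∉ Set.range a) with hs
    have hsub : {ω | Z (Set.range a) ω n = v} ⊆ Set.pi (↑s) (fun i => ({ω0 i} : Set Bool)) := by
      intro ω hω i hi
      have hω' : Z (Set.range a) ω n = v := hω
      rw [hs, Finset.mem_coe, Finset.mem_filter, Finset.mem_range] at hi
      exact dg_inj _ hi.2 (Z_inj _ ω ω0 n (hω'.trans hω0'.symm) i hi.1)
    refine (measure_mono hsub).trans ?_
    unfold Pm
    rw [Measure.infinitePi_pi _ (fun i _ => measurableSet_singleton _)]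
    simp only [coin_singleton, Finset.prod_const]
    have hcard : n ≤ s.card + m := by
      have h1 : Finset.range n ⊆ s ∪ (Finset.range m).image a := by
        intro i hi
        rw [Finset.mem_range] at hi
        by_cases hia : i ∈ Set.range a
        · obtain ⟨j, rfl⟩ := hia
          have : j < m := ha.lt_iff_lt.1 (hi.trans_le h)
          exact Finset.mem_union_right _ (Finset.mem_image_of_mem _ (Finset.mem_range.2 this))
        · exact Finset.mem_union_left _ (Finset.mem_filter.2 ⟨Finset.mem_range.2 hi, hia⟩)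
      have h2 := (Finset.card_le_card h1).trans (Finset.card_union_le _ _)
      have h3 := Finset.card_image_le (s := Finset.range m) (f := a)
      rw [Finset.card_range] at h2 h3
      omega
    have h4 : (2⁻¹ : ℝ≥0∞) = ENNReal.ofReal (2⁻¹ : ℝ) := by
      rw [ENNReal.ofReal_inv_of_pos (by norm_num)]
      simp
    rw [h4, ← ENNReal.ofReal_pow (by norm_num)]
    apply ENNReal.ofReal_le_ofReal
    rw [inv_pow, le_div_iff₀ (by positivity), inv_mul_le_iff₀ (by positivity), ← pow_add]
    exact pow_le_pow_right₀ (by norm_num) hcard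
  · rw [Set.not_nonempty_iff_eq_empty] at hne
    rw [hne, measure_empty]
    exact zero_le

theorem ball {a : ℕ → ℕ} (ha : StrictMono a) {m n : ℕ} (h : n ≤ a m) (t : Set ℝ)
    (ht : Metric.ediam t ≤ ENNReal.ofReal (1 / 2 ^ n)) :
    Pm (X (Set.range a) ⁻¹' t) ≤ ENNReal.ofReal (3 * (2 ^ m / 2 ^ n)) := by
  classical
  by_cases hne : (X (Set.range a) ⁻¹' t).Nonempty
  · -- the smallest value
    have hex : ∃ v, ∃ ω ∈ X (Set.range a) ⁻¹' t, Z (Set.range a) ω n = v := by
      obtain ⟨ω, hω⟩ := hne
      exact ⟨_, ω, hω, rfl⟩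
    obtain ⟨ω1, hω1, hv⟩ := Nat.find_spec hex
    set v := Nat.find hex with hvdef
    have hsub : X (Set.range a) ⁻¹' t ⊆ ({ω | Z (Set.range a) ω n = v} ∪
        {ω | Z (Set.range a) ω n = v + 1}) ∪ {ω | Z (Set.range a) ω n = v + 2} := by
      intro ω hω
      have h1 : v ≤ Z (Set.range a) ω n := Nat.find_min' hex ⟨ω, hω, rfl⟩
      have h2 := Z_le (Set.range a) n ω
      have h3 := le_Z (Set.range a) n ω1
      have h4 : edist (X (Set.range a) ω) (X (Set.range a) ω1) ≤ ENNReal.ofReal (1 / 2 ^ n) :=
        (Metric.edist_le_ediam_of_mem (s := t) (Set.mem_preimage.1 hω) (Set.mem_preimage.1 hω1)).trans ht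
      rw [edist_dist, ENNReal.ofReal_le_ofReal_iff (by positivity), Real.dist_eq] at h4
      have h5 := (abs_le.1 h4).2
      have h6 : (0 : ℝ) < 2 ^ n := by positivity
      have h7 : 2 ^ n * X (Set.range a) ω - 2 ^ n * X (Set.range a) ω1 ≤ 1 := by
        rw [← mul_sub]
        calc 2 ^ n * (X (Set.range a) ω - X (Set.range a) ω1) ≤ 2 ^ n * (1 / 2 ^ n) := by gcongr
          _ = 1 := by field_simp
      have h8 : (Z (Set.range a) ω n : ℝ) ≤ v + 2 := by
        rw [hv] at h3
        linarith
      have h9 : Z (Set.range a) ω n ≤ v + 2 := by exact_mod_cast h8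
      simp only [Set.mem_union, Set.mem_ofPred_eq]
      omega
    refine (measure_mono hsub).trans ?_
    refine (measure_union_le _ _).trans ?_
    refine (add_le_add (measure_union_le _ _) le_rfl).trans ?_
    refine (add_le_add (add_le_add (Z_atom ha h _) (Z_atom ha h _)) (Z_atom ha h _)).trans ?_
    rw [← ENNReal.ofReal_add (by positivity) (by positivity),
      ← ENNReal.ofReal_add (by positivity) (by positivity)]
    apply ENNReal.ofReal_le_ofReal
    apply le_of_eq
    ring
  · rw [Set.not_nonempty_iff_eq_empty] at hne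
    rw [hne, measure_empty]
    exact zero_le

theorem mk_pos {a : ℕ → ℕ} (ha : StrictMono a) (ha2 : ∀ k, 2 * k ≤ a k) {φ : ℝ → ℝ}
    (hφ : ∀ k, ∀ r : ℝ, 0 < r → r ≤ 1 / 2 ^ (a k) → 2 ^ (k + 1) * r ≤ φ r)
    (S : Set ℝ) (hS : ∀ᵐ ω ∂Pm, X (Set.range a) ω ∈ S) :
    0 < Measure.mkMetric (fun r : ℝ≥0∞ => ENNReal.ofReal (φ r.toReal)) S := by
  set ν := Measure.map (X (Set.range a)) Pm with hν
  have hX := measurable_X (Set.range a)
  have hνS : 1 ≤ ν S := by
    have h1 : Pm (X (Set.range a) ⁻¹' S) = 1 := by
      rw [← measure_univ (μ := Pm)]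
      apply measure_congr
      exact eventuallyEq_univ.2 hS
    rw [← h1]
    exact Measure.le_map_apply hX.aemeasurable S
  have hle : (ENNReal.ofReal (1 / 6)) • ν ≤
      Measure.mkMetric (fun r : ℝ≥0∞ => ENNReal.ofReal (φ r.toReal)) := by
    apply Measure.le_mkMetric _ _ (ENNReal.ofReal (1 / 2 ^ (a 0 + 1)))
    · rw [ENNReal.ofReal_pos]
      positivity
    · intro s hs
      have hcl : Metric.ediam (closure s) = Metric.ediam s := Metric.ediam_closure s
      have hfin : Metric.ediam s ≠ ∞ := (hs.trans_lt ENNReal.ofReal_lt_top).ne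
      set d := (Metric.ediam s).toReal with hd
      have hd0 : 0 ≤ d := ENNReal.toReal_nonneg
      have hed : Metric.ediam s = ENNReal.ofReal d := (ENNReal.ofReal_toReal hfin).symm
      have hds : d ≤ 1 / 2 ^ (a 0 + 1) := by
        rw [hed] at hs
        rwa [ENNReal.ofReal_le_ofReal_iff (by positivity)] at hs
      have hνs : ν s ≤ Pm (X (Set.range a) ⁻¹' (closure s)) := by
        refine (measure_mono subset_closure).trans ?_
        rw [hν, Measure.map_apply hX isClosed_closure.measurableSet]
      rw [Measure.smul_apply, smul_eq_mul]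
      rcases hd0.eq_or_lt with h0 | h0
      · -- diameter zero
        have hz : Pm (X (Set.range a) ⁻¹' (closure s)) ≤ 0 := by
          have hb : ∀ m : ℕ, Pm (X (Set.range a) ⁻¹' (closure s)) ≤ ENNReal.ofReal (3 * (1 / 2 : ℝ) ^ m) := by
            intro m
            refine (ball ha (le_refl (a m)) (closure s) ?_).trans ?_
            · rw [hcl, hed, ← h0]
              simp
            · apply ENNReal.ofReal_le_ofReal
              have h1 : (2 : ℝ) ^ m * 2 ^ m ≤ 2 ^ (a m) := by
                rw [← pow_add]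
                exact pow_le_pow_right₀ (by norm_num) (by have := ha2 m; omega)
              have h2 : (2 : ℝ) ^ m / 2 ^ (a m) ≤ (1 / 2) ^ m := by
                rw [div_le_iff₀ (by positivity), one_div, inv_pow]
                rw [le_inv_mul_iff₀ (by positivity)]
                exact h1
              linarith
          have hlim : Tendsto (fun m : ℕ => ENNReal.ofReal (3 * (1 / 2 : ℝ) ^ m)) atTop (𝓝 0) := by
            have h1 : Tendsto (fun m : ℕ => 3 * (1 / 2 : ℝ) ^ m) atTop (𝓝 (3 * 0)) :=
              (tendsto_pow_atTop_nhds_zero_of_lt_one (by norm_num) (by norm_num)).const_mul 3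
            rw [mul_zero] at h1
            have := ENNReal.tendsto_ofReal h1
            rwa [ENNReal.ofReal_zero] at this
          exact ge_of_tendsto' hlim hb
        have h1 : ν s = 0 := le_antisymm (hνs.trans hz) zero_le
        rw [h1, mul_zero]
        exact zero_le
      · -- positive diameter
        obtain ⟨n, hn1, hn2⟩ := exists_nat_pow_near_of_lt_one h0
          (hds.trans (by
            rw [div_le_one (by positivity)]
            exact one_le_pow₀ (by norm_num))) (by norm_num : (0 : ℝ) < 1 / 2) (by norm_num)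
        rw [one_div, inv_pow, ← one_div] at hn1 hn2
        have hn3 : a 0 + 1 < n + 1 := by
          have h1 : (1 : ℝ) / 2 ^ (n + 1) < 1 / 2 ^ (a 0 + 1) := hn1.trans_le hds
          rw [one_div_lt_one_div (by positivity) (by positivity)] at h1
          exact (pow_lt_pow_iff_right₀ (by norm_num)).1 h1
        -- the index
        have hex : ∃ m, n ≤ a m := ⟨n, ha.id_le n⟩
        obtain ⟨k, hk1, hk2⟩ : ∃ k, a k < n ∧ n ≤ a (k + 1) := by
          classical
          have h1 := Nat.find_spec hex
          have h2 : Nat.find hex ≠ 0 := by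
            intro h3
            rw [h3] at h1
            omega
          obtain ⟨k, hk⟩ := Nat.exists_eq_succ_of_ne_zero h2
          refine ⟨k, ?_, ?_⟩
          · have := Nat.find_min hex (m := k) (by omega)
            omega
          · rw [hk] at h1
            exact h1
        have hb := ball ha hk2 (closure s) (by
          rw [hcl, hed]
          exact ENNReal.ofReal_le_ofReal hn2)
        refine (mul_le_mul_right (hνs.trans hb) _).trans ?_
        rw [← ENNReal.ofReal_mul (by norm_num)]
        apply ENNReal.ofReal_le_ofReal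
        have h2 := hφ k d h0 (hn2.trans (by
          rw [one_div_le_one_div (by positivity) (by positivity)]
          exact pow_le_pow_right₀ (by norm_num) hk1.le))
        refine le_trans ?_ h2
        have h3 : (1 : ℝ) / 2 ^ n ≤ 2 * d := by
          rw [pow_succ] at hn1
          have : (1 : ℝ) / 2 ^ n = 2 * (1 / (2 ^ n * 2)) := by field_simp
          rw [this]
          linarith
        calc 1 / 6 * (3 * ((2 : ℝ) ^ (k + 1) / 2 ^ n)) = 1 / 2 * 2 ^ (k + 1) * (1 / 2 ^ n) := by ring
          _ ≤ 1 / 2 * 2 ^ (k + 1) * (2 * d) := by gcongr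
          _ = 2 ^ (k + 1) * d := by ring
  have h1 := hle S
  rw [Measure.smul_apply, smul_eq_mul] at h1
  refine lt_of_lt_of_le ?_ h1
  have h2 : ENNReal.ofReal (1 / 6) * 1 ≤ ENNReal.ofReal (1 / 6) * ν S := mul_le_mul_right hνS _
  refine lt_of_lt_of_le ?_ h2
  rw [mul_one, ENNReal.ofReal_pos]
  norm_num

end Pool.Agent.N245.UN
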