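import Mathlib

/-! # Counting the bad exponents -/

set_option autoImplicit false

open Filter Topology

namespace Pool.Agent.N245.UN

/-- The exponents for which the Fourier bound is useful. -/
def Good (a : ℕ → ℕ) (b h s M : ℕ) : Prop :=
  ∃ k, 2 ^ (a k + s) * b ≤ b ^ M ∧ 2 * h * b ^ M ≤ 2 ^ (a (k + 1))

/-- The exponents near the place number `k`. -/
def Near (a : ℕ → ℕ) (b h s k M : ℕ) : Prop :=
  b ^ M < 2 ^ (a k + s) * b ∧ 2 ^ (a k) < 2 * h * b ^ M

theorem bad_cases {a : ℕ → ℕ} (ha : StrictMono a) {b h s M : ℕ} (hb : 2 ≤ b)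
    (hbad : ¬ Good a b h s M) : b ^ M < 2 ^ (a 0 + s) * b ∨ ∃ k, Near a b h s k M := by
  classical
  by_contra hcon
  push Not at hcon
  obtain ⟨h0, h1⟩ := hcon
  have key : ∀ k, 2 ^ (a k + s) * b ≤ b ^ M := by
    intro k
    induction k with
    | zero => exact h0
    | succ k ih =>
      by_contra h2
      push Not at h2
      apply h1 (k + 1)
      refine ⟨h2, ?_⟩
      by_contra h3
      push Not at h3
      exact hbad ⟨k, ih, h3⟩
  have h2 := key (b ^ M)
  have h3 : b ^ M ≤ a (b ^ M) := ha.id_le _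
  have h4 : a (b ^ M) < 2 ^ (a (b ^ M)) := Nat.lt_two_pow_self
  have h5 : 2 ^ (a (b ^ M)) ≤ 2 ^ (a (b ^ M) + s) * b := by
    calc 2 ^ (a (b ^ M)) ≤ 2 ^ (a (b ^ M) + s) := Nat.pow_le_pow_right (by norm_num) (by omega)
      _ ≤ 2 ^ (a (b ^ M) + s) * b := Nat.le_mul_of_pos_right _ (by omega)
  omega

theorem near_dist {a : ℕ → ℕ} {b h s k M M' : ℕ} (hb : 2 ≤ b) (h1 : Near a b h s k M)
    (h2 : Near a b h s k M') : M' < M + (2 * h + s + 1) := by
  have h3 : b ^ M' < b ^ (M + (2 * h + s + 1)) := by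
    calc b ^ M' < 2 ^ (a k + s) * b := h2.1
      _ = 2 ^ (a k) * (2 ^ s * b) := by ring
      _ ≤ (2 * h * b ^ M) * (2 ^ s * b) := Nat.mul_le_mul_right _ h1.2.le
      _ ≤ (b ^ (2 * h) * b ^ M) * (b ^ s * b) := by
          have e1 : 2 * h ≤ b ^ (2 * h) := (Nat.lt_pow_self (by omega)).le
          have e2 : 2 ^ s ≤ b ^ s := Nat.pow_le_pow_left hb s
          exact Nat.mul_le_mul (Nat.mul_le_mul e1 le_rfl) (Nat.mul_le_mul e2 le_rfl)
      _ = b ^ (M + (2 * h + s + 1)) := by ring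
  exact (Nat.pow_lt_pow_iff_right (by omega)).1 h3

theorem near_lt {a : ℕ → ℕ} {b h s k M N : ℕ} (hb : 2 ≤ b) (h1 : Near a b h s k M)
    (hM : M ≤ N) : a k < 2 * h + b * N := by
  have h3 : 2 ^ (a k) < 2 ^ (2 * h + b * N) := by
    calc 2 ^ (a k) < 2 * h * b ^ M := h1.2
      _ ≤ 2 ^ (2 * h) * (2 ^ b) ^ N := by
          have e1 : 2 * h ≤ 2 ^ (2 * h) := (Nat.lt_pow_self (by omega)).le
          have e2 : b ^ M ≤ b ^ N := Nat.pow_le_pow_right (by omega) hM
          have e3 : b ^ N ≤ (2 ^ b) ^ N := Nat.pow_le_pow_left (Nat.lt_pow_self (by omega)).le N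
          exact Nat.mul_le_mul e1 (e2.trans e3)
      _ = 2 ^ (2 * h + b * N) := by rw [pow_add, pow_mul 2 b N]
  exact (Nat.pow_lt_pow_iff_right (by omega)).1 h3

theorem init_lt {b s c M : ℕ} (hb : 2 ≤ b) (h : b ^ M < 2 ^ (c + s) * b) : M < c + s + b := by
  have h3 : 2 ^ M < 2 ^ (c + s + b) := by
    calc 2 ^ M ≤ b ^ M := Nat.pow_le_pow_left hb M
      _ < 2 ^ (c + s) * b := h
      _ ≤ 2 ^ (c + s) * 2 ^ b := Nat.mul_le_mul le_rfl (Nat.lt_pow_self (by omega)).le
      _ = 2 ^ (c + s + b) := by rw [pow_add _ (c + s)]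
  exact (Nat.pow_lt_pow_iff_right (by omega)).1 h3

open Classical in
theorem card_bad {a : ℕ → ℕ} (ha : StrictMono a) {b h s N K : ℕ} (hb : 2 ≤ b)
    (hK : ∀ k, K ≤ k → 2 * h + b * N ≤ a k) :
    ((Finset.range N).filter (fun M => ¬ Good a b h s M)).card ≤
      (a 0 + s + b) + K * (2 * h + s + 1) := by
  have hsub : (Finset.range N).filter (fun M => ¬ Good a b h s M) ⊆
      Finset.range (a 0 + s + b) ∪ (Finset.range K).biUnion
        (fun k => (Finset.range N).filter (fun M => Near a b h s k M)) := by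
    intro M hM
    rw [Finset.mem_filter, Finset.mem_range] at hM
    rcases bad_cases ha hb hM.2 with h1 | ⟨k, h1⟩
    · exact Finset.mem_union_left _ (Finset.mem_range.2 (init_lt hb h1))
    · apply Finset.mem_union_right
      rw [Finset.mem_biUnion]
      refine ⟨k, ?_, Finset.mem_filter.2 ⟨Finset.mem_range.2 hM.1, h1⟩⟩
      rw [Finset.mem_range]
      by_contra h2
      push Not at h2
      have h3 := near_lt hb h1 hM.1.le
      have h4 := hK k h2
      omega
  refine (Finset.card_le_card hsub).trans ((Finset.card_union_le _ _).trans ?_)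
  rw [Finset.card_range]
  gcongr
  refine Finset.card_biUnion_le.trans ?_
  refine (Finset.sum_le_card_nsmul _ _ (2 * h + s + 1) ?_).trans ?_
  · intro k _
    by_cases hne : ((Finset.range N).filter (fun M => Near a b h s k M)).Nonempty
    · set m0 := ((Finset.range N).filter (fun M => Near a b h s k M)).min' hne with hm0
      have hm : m0 ∈ (Finset.range N).filter (fun M => Near a b h s k M) := Finset.min'_mem _ _
      have : (Finset.range N).filter (fun M => Near a b h s k M) ⊆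
          Finset.Ico m0 (m0 + (2 * h + s + 1)) := by
        intro M hM
        rw [Finset.mem_Ico]
        refine ⟨Finset.min'_le _ _ hM, ?_⟩
        exact near_dist hb (Finset.mem_filter.1 hm).2 (Finset.mem_filter.1 hM).2
      refine (Finset.card_le_card this).trans ?_
      rw [Nat.card_Ico]
      omega
    · rw [Finset.not_nonempty_iff_eq_empty] at hne
      rw [hne]
      simp
  · rw [Finset.card_range, smul_eq_mul]

open Classical in
theorem card_bad_four {a : ℕ → ℕ} (ha : StrictMono a) (ha4 : ∀ k, (k + 1) ^ 4 ≤ a k) {b h j : ℕ}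
    (hb : 2 ≤ b) (hj : 1 ≤ j) :
    ((Finset.range (j ^ 4)).filter (fun M => ¬ Good a b h j M)).card ≤
      ((a 0 + 1 + b) + (2 * h + b + 1) * (2 * h + 2)) * j ^ 2 := by
  refine (card_bad ha hb (K := (2 * h + b + 1) * j) ?_).trans ?_
  · intro k hk
    refine le_trans ?_ (ha4 k)
    have h1 : ((2 * h + b + 1) * j) ^ 4 ≤ (k + 1) ^ 4 := Nat.pow_le_pow_left (by omega) 4
    refine le_trans ?_ h1
    rw [mul_pow]
    have h2 : 2 * h + b + 1 ≤ (2 * h + b + 1) ^ 4 := Nat.le_self_pow (by norm_num) _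
    have h3 : 1 ≤ j ^ 4 := Nat.one_le_pow _ _ (by omega)
    calc 2 * h + b * j ^ 4 ≤ (2 * h + b + 1) * j ^ 4 := by nlinarith
      _ ≤ (2 * h + b + 1) ^ 4 * j ^ 4 := Nat.mul_le_mul_right _ h2
  · have h1 : a 0 + j + b ≤ (a 0 + 1 + b) * j ^ 2 := by
      have e1 : j ≤ j ^ 2 := Nat.le_self_pow (by norm_num) _
      have e2 : 1 ≤ j ^ 2 := Nat.one_le_pow _ _ (by omega)
      nlinarith
    have h2 : (2 * h + b + 1) * j * (2 * h + j + 1) ≤ (2 * h + b + 1) * (2 * h + 2) * j ^ 2 := by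
      have e1 : 2 * h + j + 1 ≤ (2 * h + 2) * j := by nlinarith
      calc (2 * h + b + 1) * j * (2 * h + j + 1) ≤ (2 * h + b + 1) * j * ((2 * h + 2) * j) :=
            Nat.mul_le_mul_left _ e1
        _ = _ := by ring
    calc a 0 + j + b + (2 * h + b + 1) * j * (2 * h + j + 1) ≤
        (a 0 + 1 + b) * j ^ 2 + (2 * h + b + 1) * (2 * h + 2) * j ^ 2 := add_le_add h1 h2
      _ = _ := by ring

end Pool.Agent.N245.UN
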