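import Mathlib

/-! # Digits and fractional parts -/

set_option autoImplicit false

namespace Pool.Agent.N245.UN

/-- The integer with the digits `w 0, …, w (k-1)` in base `b`. -/
def dig (w : ℕ → ℤ) (b : ℤ) : ℕ → ℤ
  | 0 => 0
  | (k + 1) => b * dig w b k + w k

theorem dig_nonneg {w : ℕ → ℤ} {b : ℤ} (hb : 0 < b) {k : ℕ} (h : ∀ j < k, 0 ≤ w j ∧ w j < b) :
    0 ≤ dig w b k := by
  induction k with
  | zero => simp [dig]
  | succ k ih =>
    rw [dig]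
    have h1 := ih fun j hj => h j (by omega)
    have h2 := h k (by omega)
    have := mul_nonneg hb.le h1
    linarith [h2.1]

theorem dig_lt {w : ℕ → ℤ} {b : ℤ} (hb : 0 < b) {k : ℕ} (h : ∀ j < k, 0 ≤ w j ∧ w j < b) :
    dig w b k + 1 ≤ b ^ k := by
  induction k with
  | zero => simp [dig]
  | succ k ih =>
    rw [dig]
    have h1 := ih fun j hj => h j (by omega)
    have h2 := h k (by omega)
    have h3 : b * (dig w b k + 1) ≤ b * b ^ k := mul_le_mul_of_nonneg_left h1 hb.le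
    rw [pow_succ]
    linarith [h2.2]

theorem floor_step (y : ℝ) {b : ℕ} (hb : 0 < b) (k : ℕ) :
    ⌊y * (b : ℝ) ^ (k + 1)⌋ / (b : ℤ) = ⌊y * (b : ℝ) ^ k⌋ := by
  have h1 : y * (b : ℝ) ^ k = y * (b : ℝ) ^ (k + 1) / (b : ℝ) := by
    have : (b : ℝ) ≠ 0 := by positivity
    rw [pow_succ]
    field_simp
  rw [h1]
  exact (Int.floor_div_natCast _ _).symm

theorem dig_iff (y : ℝ) {w : ℕ → ℤ} {b : ℕ} (hb : 0 < b) (k : ℕ)
    (h : ∀ j < k, 0 ≤ w j ∧ w j < (b : ℤ)) :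
    (∀ j < k, ⌊y * (b : ℝ) ^ (j + 1)⌋ % (b : ℤ) = w j) ↔
      ⌊y * (b : ℝ) ^ k⌋ = ⌊y⌋ * (b : ℤ) ^ k + dig w b k := by
  have hbZ : (0 : ℤ) < b := by exact_mod_cast hb
  induction k with
  | zero => simp [dig]
  | succ k ih =>
    have ih' := ih fun j hj => h j (by omega)
    have hk := h k (by omega)
    have h1 := floor_step y hb k
    have h2 := Int.mul_ediv_add_emod ⌊y * (b : ℝ) ^ (k + 1)⌋ (b : ℤ)
    rw [h1] at h2
    rw [dig]
    constructor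
    · intro h3
      have h4 := ih'.1 fun j hj => h3 j (by omega)
      have h5 := h3 k (by omega)
      rw [h5, h4] at h2
      rw [← h2]
      ring
    · intro h3
      have h6 : ⌊y * (b : ℝ) ^ (k + 1)⌋ = w k + (b : ℤ) * (⌊y⌋ * (b : ℤ) ^ k + dig w b k) := by
        rw [h3]
        ring
      have h7 : ⌊y * (b : ℝ) ^ (k + 1)⌋ % (b : ℤ) = w k := by
        rw [h6, Int.add_mul_emod_self_left, Int.emod_eq_of_lt hk.1 hk.2]
      have h8 : ⌊y * (b : ℝ) ^ k⌋ = ⌊y⌋ * (b : ℤ) ^ k + dig w b k := by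
        rw [← h1, h6, Int.add_mul_ediv_left _ _ hbZ.ne', Int.ediv_eq_zero_of_lt hk.1 hk.2, zero_add]
      intro j hj
      rcases Nat.lt_succ_iff_lt_or_eq.1 hj with h9 | h9
      · exact ih'.2 h8 j h9
      · rw [h9]
        exact h7

theorem floor_iff (y : ℝ) {b : ℕ} (hb : 0 < b) (k : ℕ) (c : ℤ) :
    ⌊y * (b : ℝ) ^ k⌋ = ⌊y⌋ * (b : ℤ) ^ k + c ↔
      (c : ℝ) / (b : ℝ) ^ k ≤ Int.fract y ∧ Int.fract y < ((c : ℝ) + 1) / (b : ℝ) ^ k := by
  have hbp : (0 : ℝ) < (b : ℝ) ^ k := by positivity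
  rw [div_le_iff₀ hbp, lt_div_iff₀ hbp, Int.floor_eq_iff]
  have h1 : Int.fract y * (b : ℝ) ^ k = y * (b : ℝ) ^ k - ⌊y⌋ * (b : ℝ) ^ k := by
    rw [Int.fract]
    ring
  rw [h1]
  push_cast
  constructor
  · rintro ⟨h2, h3⟩
    constructor <;> linarith
  · rintro ⟨h2, h3⟩
    constructor <;> linarith

theorem digits_iff (x : ℝ) {b : ℕ} (hb : 0 < b) (k : ℕ) (w : Fin k → ℤ)
    (h : ∀ j : Fin k, 0 ≤ w j ∧ w j < (b : ℤ)) :
    ∃ c : ℤ, 0 ≤ c ∧ c + 1 ≤ (b : ℤ) ^ k ∧ ∀ i : ℕ,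
      ((∀ j : Fin k, ⌊x * (b : ℝ) ^ (i + j.val + 1)⌋ % (b : ℤ) = w j) ↔
        ((c : ℝ) / (b : ℝ) ^ k ≤ Int.fract ((b : ℝ) ^ i * x) ∧
          Int.fract ((b : ℝ) ^ i * x) < ((c : ℝ) + 1) / (b : ℝ) ^ k)) := by
  classical
  set w' : ℕ → ℤ := fun j => if hj : j < k then w ⟨j, hj⟩ else 0 with hw'
  have hw : ∀ j < k, 0 ≤ w' j ∧ w' j < (b : ℤ) := by
    intro j hj
    simp only [hw', dif_pos hj]
    exact h ⟨j, hj⟩
  have hbZ : (0 : ℤ) < b := by exact_mod_cast hb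
  refine ⟨dig w' b k, dig_nonneg hbZ hw, dig_lt hbZ hw, fun i => ?_⟩
  rw [← floor_iff _ hb, ← dig_iff _ hb k hw]
  constructor
  · intro h1 j hj
    have h2 := h1 ⟨j, hj⟩
    simp only [hw', dif_pos hj]
    rw [← h2]
    congr 2
    simp only []
    ring
  · intro h1 j
    have h2 := h1 j.val j.isLt
    simp only [hw', dif_pos j.isLt] at h2
    rw [← h2]
    congr 2
    ring

end Pool.Agent.N245.UN
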