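import Mathlib
import Pool.Agent.N245.UN.Meas
import Pool.Agent.N245.UN.Count

/-! # Almost every point of the natural measure is absolutely normal -/

set_option autoImplicit false

open MeasureTheory Filter Topology ProbabilityTheory
open scoped ENNReal ComplexConjugate

namespace Pool.Agent.N245.UN

open Pool.Agent.H534R3.UDist

theorem ae_tendsto_of_summable {Ω : Type*} [MeasurableSpace Ω] {μ : Measure Ω} {g : ℕ → Ω → ℝ}
    (hg : ∀ j, Measurable (g j)) (hg0 : ∀ j ω, 0 ≤ g j ω) (hint : ∀ j, Integrable (g j) μ)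
    {c : ℕ → ℝ} (hc : Summable c) (hgc : ∀ j, ∫ ω, g j ω ∂μ ≤ c j) :
    ∀ᵐ ω ∂μ, Tendsto (fun j => g j ω) atTop (𝓝 0) := by
  have hc0 : ∀ j, 0 ≤ c j := fun j => (integral_nonneg (hg0 j)).trans (hgc j)
  have h1 : ∫⁻ ω, ∑' j, ENNReal.ofReal (g j ω) ∂μ ≠ ∞ := by
    rw [lintegral_tsum fun j => (hg j).ennreal_ofReal.aemeasurable]
    have h2 : ∀ j, ∫⁻ ω, ENNReal.ofReal (g j ω) ∂μ ≤ ENNReal.ofReal (c j) := by
      intro j
      rw [← ofReal_integral_eq_lintegral_ofReal (hint j) (ae_of_all _ (hg0 j))]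
      exact ENNReal.ofReal_le_ofReal (hgc j)
    refine ((ENNReal.tsum_le_tsum h2).trans_lt ?_).ne
    rw [← ENNReal.ofReal_tsum_of_nonneg hc0 hc]
    exact ENNReal.ofReal_lt_top
  have h2 := ae_lt_top (Measurable.tsum fun j => (hg j).ennreal_ofReal) h1
  filter_upwards [h2] with ω hω
  have h3 := ENNReal.tendsto_atTop_zero_of_tsum_ne_top hω.ne
  have h4 := (ENNReal.tendsto_toReal ENNReal.zero_ne_top).comp h3
  rw [ENNReal.toReal_zero] at h4
  refine h4.congr fun j => ?_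
  simp only [Function.comp]
  exact ENNReal.toReal_ofReal (hg0 j ω)

theorem norm_sub_le_of_step {f : ℕ → ℂ} (hf : ∀ n, ‖f (n + 1) - f n‖ ≤ 1) (m k : ℕ) :
    ‖f (m + k) - f m‖ ≤ k := by
  induction k with
  | zero => simp
  | succ k ih =>
    have h1 : f (m + (k + 1)) - f m = (f (m + k + 1) - f (m + k)) + (f (m + k) - f m) := by
      rw [← add_assoc]
      ring
    rw [h1]
    refine (norm_add_le _ _).trans ?_
    have := hf (m + k)
    push_cast
    linarith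

theorem interp {f : ℕ → ℂ} (hf : ∀ n, ‖f (n + 1) - f n‖ ≤ 1)
    (h : Tendsto (fun j : ℕ => ‖f (j ^ 4)‖ / ((j : ℝ) ^ 4)) atTop (𝓝 0)) :
    Tendsto (fun N : ℕ => ‖f N‖ / (N : ℝ)) atTop (𝓝 0) := by
  have hJ : Tendsto (fun N : ℕ => Nat.sqrt (Nat.sqrt N)) atTop atTop := by
    have h1 : Tendsto Nat.sqrt atTop atTop := by
      rw [tendsto_atTop]
      intro b
      filter_upwards [eventually_ge_atTop (b * b)] with n hn
      exact Nat.le_sqrt.2 hn
    exact h1.comp h1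
  have h15 : Tendsto (fun j : ℕ => (15 : ℝ) / j) atTop (𝓝 0) :=
    tendsto_const_div_atTop_nhds_zero_nat 15
  have h2 := (h.add h15).comp hJ
  rw [add_zero] at h2
  refine squeeze_zero' (Eventually.of_forall fun N => by positivity) ?_ h2
  filter_upwards [hJ.eventually_ge_atTop 1] with N hN
  simp only [Function.comp]
  set j := Nat.sqrt (Nat.sqrt N) with hj
  have hj1 : (1 : ℝ) ≤ j := by exact_mod_cast hN
  have hle : j ^ 4 ≤ N := by
    have e1 : j ^ 2 ≤ Nat.sqrt N := Nat.sqrt_le' _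
    have e2 : (Nat.sqrt N) ^ 2 ≤ N := Nat.sqrt_le' _
    calc j ^ 4 = (j ^ 2) ^ 2 := by ring
      _ ≤ (Nat.sqrt N) ^ 2 := Nat.pow_le_pow_left e1 2
      _ ≤ N := e2
  have hlt : N < (j + 1) ^ 4 := by
    have e1 : Nat.sqrt N < (j + 1) ^ 2 := Nat.lt_succ_sqrt' _
    have e2 : N < (Nat.sqrt N + 1) ^ 2 := Nat.lt_succ_sqrt' _
    calc N < (Nat.sqrt N + 1) ^ 2 := e2
      _ ≤ ((j + 1) ^ 2) ^ 2 := Nat.pow_le_pow_left (by omega) 2
      _ = (j + 1) ^ 4 := by ring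
  have hleR : (j : ℝ) ^ 4 ≤ N := by exact_mod_cast hle
  have hltR : (N : ℝ) ≤ ((j : ℝ) + 1) ^ 4 := by exact_mod_cast hlt.le
  have h3 : ‖f N‖ ≤ ‖f (j ^ 4)‖ + (N - (j : ℝ) ^ 4) := by
    have e1 := norm_sub_le_of_step hf (j ^ 4) (N - j ^ 4)
    rw [Nat.add_sub_cancel' hle, Nat.cast_sub hle] at e1
    have e2 := norm_sub_norm_le (f N) (f (j ^ 4))
    push_cast at e1
    linarith
  have h4 : (N : ℝ) - (j : ℝ) ^ 4 ≤ 15 * (j : ℝ) ^ 3 := by
    have e1 : ((j : ℝ) + 1) ^ 4 - (j : ℝ) ^ 4 = 4 * (j : ℝ) ^ 3 + 6 * (j : ℝ) ^ 2 + 4 * j + 1 := by ring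
    have e2 : (j : ℝ) ^ 2 ≤ (j : ℝ) ^ 3 := pow_le_pow_right₀ hj1 (by norm_num)
    have e3 : (j : ℝ) ≤ (j : ℝ) ^ 3 := by
      calc (j : ℝ) = (j : ℝ) ^ 1 := (pow_one _).symm
        _ ≤ (j : ℝ) ^ 3 := pow_le_pow_right₀ hj1 (by norm_num)
    have e4 : 1 ≤ (j : ℝ) ^ 3 := one_le_pow₀ hj1
    linarith
  have hj0 : (0 : ℝ) < (j : ℝ) ^ 4 := by positivity
  have hN0 : (0 : ℝ) < N := lt_of_lt_of_le hj0 hleR
  calc ‖f N‖ / N ≤ (‖f (j ^ 4)‖ + 15 * (j : ℝ) ^ 3) / N := by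
        gcongr
        linarith
    _ ≤ (‖f (j ^ 4)‖ + 15 * (j : ℝ) ^ 3) / (j : ℝ) ^ 4 := by
        gcongr
    _ = ‖f (j ^ 4)‖ / (j : ℝ) ^ 4 + 15 / j := by
        rw [add_div]
        congr 1
        field_simp

theorem norm_integral_ee_le (f : (ℕ → Bool) → ℝ) : ‖∫ ω, ee (f ω) ∂Pm‖ ≤ 1 := by
  have := norm_integral_le_of_norm_le_const (μ := Pm) (f := fun ω => ee (f ω)) (C := 1)
    (ae_of_all _ fun ω => (norm_ee _).le)
  simpa using this

theorem pow_diff {b : ℝ} (hb : 2 ≤ b) {m n : ℕ} (h : m < n) :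
    b ^ n / b ≤ |b ^ m - b ^ n| ∧ |b ^ m - b ^ n| ≤ b ^ n := by
  have h1 : b ^ m * b ≤ b ^ n := by
    rw [← pow_succ]
    exact pow_le_pow_right₀ (by linarith) h
  have h2 : 0 < b ^ m := by positivity
  have h3 : b ^ m ≤ b ^ n / b := by
    rw [le_div_iff₀ (by linarith)]
    exact h1
  have h4 : b ^ n / b * 2 ≤ b ^ n := by
    rw [div_mul_eq_mul_div, div_le_iff₀ (by linarith)]
    have : 0 < b ^ n := by positivity
    nlinarith
  rw [abs_sub_comm, abs_of_nonneg (by nlinarith)]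
  constructor <;> nlinarith

open Classical in
theorem pair_bound {a : ℕ → ℕ} (ha : StrictMono a) {b h : ℕ} (s : ℕ) (hb : 2 ≤ b) (hh : 1 ≤ h)
    (m n : ℕ) :
    ‖∫ ω, ee (((h : ℝ) * ((b : ℝ) ^ m - (b : ℝ) ^ n)) * X (Set.range a) ω) ∂Pm‖ ≤
      (if m = n then 1 else 0) + (1 / 2 : ℝ) ^ s + (if ¬ Good a b h s m then 1 else 0) +
        (if ¬ Good a b h s n then 1 else 0) := by
  have hs : (0 : ℝ) < (1 / 2) ^ s := by positivity
  have key : ∀ M, Good a b h s M → (b : ℝ) ^ M / b ≤ |(b : ℝ) ^ m - (b : ℝ) ^ n| →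
      |(b : ℝ) ^ m - (b : ℝ) ^ n| ≤ (b : ℝ) ^ M →
      ‖∫ ω, ee (((h : ℝ) * ((b : ℝ) ^ m - (b : ℝ) ^ n)) * X (Set.range a) ω) ∂Pm‖ ≤ (1 / 2 : ℝ) ^ s := by
    rintro M ⟨k, h1, h2⟩ h3 h4
    have hb0 : (0 : ℝ) < b := by positivity
    have h1' : (2 : ℝ) ^ (a k + s) * b ≤ (b : ℝ) ^ M := by exact_mod_cast h1
    have h2' : 2 * (h : ℝ) * (b : ℝ) ^ M ≤ (2 : ℝ) ^ (a (k + 1)) := by exact_mod_cast h2
    have hh' : (1 : ℝ) ≤ h := by exact_mod_cast hh
    have h5 : (2 : ℝ) ^ (a k + s) ≤ (b : ℝ) ^ M / b := by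
      rw [le_div_iff₀ hb0]
      exact h1'
    have h6 : (2 : ℝ) ^ (a k + s) ≤ |(h : ℝ) * ((b : ℝ) ^ m - (b : ℝ) ^ n)| := by
      rw [abs_mul, abs_of_nonneg (by linarith : (0 : ℝ) ≤ h)]
      have := h5.trans h3
      nlinarith [abs_nonneg ((b : ℝ) ^ m - (b : ℝ) ^ n)]
    have h7 : (0 : ℝ) < 2 ^ (a k + s) := by positivity
    have h8 : (h : ℝ) * ((b : ℝ) ^ m - (b : ℝ) ^ n) ≠ 0 := by
      intro h9
      rw [h9, abs_zero] at h6
      linarith
    refine (fourier_bound ha k h8 ?_).trans ?_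
    · rw [abs_mul, abs_of_nonneg (by linarith : (0 : ℝ) ≤ h)]
      have : (h : ℝ) * |(b : ℝ) ^ m - (b : ℝ) ^ n| ≤ h * (b : ℝ) ^ M := by gcongr
      linarith
    · calc (2 : ℝ) ^ (a k) / |(h : ℝ) * ((b : ℝ) ^ m - (b : ℝ) ^ n)| ≤ 2 ^ (a k) / 2 ^ (a k + s) := by
            gcongr
        _ = (1 / 2) ^ s := by
            rw [pow_add, one_div, inv_pow]
            field_simp
  have hbR : (2 : ℝ) ≤ b := by exact_mod_cast hb
  rcases lt_trichotomy m n with hmn | hmn | hmn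
  · obtain ⟨e1, e2⟩ := pow_diff hbR hmn
    by_cases hg : Good a b h s n
    · have := key n hg e1 e2
      have e3 : (0 : ℝ) ≤ (if m = n then 1 else 0) := by split_ifs <;> norm_num
      have e4 : (0 : ℝ) ≤ (if ¬ Good a b h s m then 1 else 0) := by split_ifs <;> norm_num
      have e5 : (0 : ℝ) ≤ (if ¬ Good a b h s n then 1 else 0) := by split_ifs <;> norm_num
      linarith
    · rw [if_pos hg]
      refine (norm_integral_ee_le _).trans ?_
      have e3 : (0 : ℝ) ≤ (if m = n then 1 else 0) := by split_ifs <;> norm_num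
      have e4 : (0 : ℝ) ≤ (if ¬ Good a b h s m then 1 else 0) := by split_ifs <;> norm_num
      linarith
  · rw [if_pos hmn]
    refine (norm_integral_ee_le _).trans ?_
    have e4 : (0 : ℝ) ≤ (if ¬ Good a b h s m then 1 else 0) := by split_ifs <;> norm_num
    have e5 : (0 : ℝ) ≤ (if ¬ Good a b h s n then 1 else 0) := by split_ifs <;> norm_num
    linarith
  · obtain ⟨e1, e2⟩ := pow_diff hbR hmn
    rw [abs_sub_comm] at e1 e2
    by_cases hg : Good a b h s m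
    · have := key m hg e1 e2
      have e3 : (0 : ℝ) ≤ (if m = n then 1 else 0) := by split_ifs <;> norm_num
      have e4 : (0 : ℝ) ≤ (if ¬ Good a b h s m then 1 else 0) := by split_ifs <;> norm_num
      have e5 : (0 : ℝ) ≤ (if ¬ Good a b h s n then 1 else 0) := by split_ifs <;> norm_num
      linarith
    · rw [if_pos hg]
      refine (norm_integral_ee_le _).trans ?_
      have e3 : (0 : ℝ) ≤ (if m = n then 1 else 0) := by split_ifs <;> norm_num
      have e5 : (0 : ℝ) ≤ (if ¬ Good a b h s n then 1 else 0) := by split_ifs <;> norm_num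
      linarith

/-- The exponential sums. -/
noncomputable def WS (A : Set ℕ) (b h N : ℕ) (ω : ℕ → Bool) : ℂ :=
  ∑ n ∈ Finset.range N, ee ((h : ℝ) * ((b : ℝ) ^ n * X A ω))

theorem measurable_WS (A : Set ℕ) (b h N : ℕ) : Measurable (WS A b h N) := by
  unfold WS
  refine Finset.measurable_sum _ fun n _ => ?_
  exact continuous_ee.measurable.comp (((measurable_X A).const_mul _).const_mul _)

theorem norm_WS_le (A : Set ℕ) (b h N : ℕ) (ω : ℕ → Bool) : ‖WS A b h N ω‖ ≤ N := by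
  unfold WS
  refine (norm_sum_le _ _).trans ?_
  simp [norm_ee]

theorem conj_ee (t : ℝ) : conj (ee t) = ee (-t) := by
  have h1 : ∀ u : ℝ, ee u = Complex.exp (((2 * Real.pi * u : ℝ) : ℂ) * Complex.I) := by
    intro u
    unfold ee
    congr 1
    push_cast
    ring
  rw [h1, h1, ← Complex.exp_conj]
  congr 1
  rw [map_mul, Complex.conj_ofReal, Complex.conj_I]
  push_cast
  ring

theorem sq_WS (A : Set ℕ) (b h N : ℕ) (ω : ℕ → Bool) :
    ((‖WS A b h N ω‖ ^ 2 : ℝ) : ℂ) = ∑ m ∈ Finset.range N, ∑ n ∈ Finset.range N,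
      ee (((h : ℝ) * ((b : ℝ) ^ m - (b : ℝ) ^ n)) * X A ω) := by
  rw [← Complex.normSq_eq_norm_sq, ← Complex.mul_conj]
  unfold WS
  rw [map_sum, Finset.sum_mul_sum]
  refine Finset.sum_congr rfl fun m _ => Finset.sum_congr rfl fun n _ => ?_
  rw [conj_ee, ← ee_add]
  congr 1
  ring

open Classical in
theorem second_moment {a : ℕ → ℕ} (ha : StrictMono a) {b h : ℕ} (s N : ℕ) (hb : 2 ≤ b) (hh : 1 ≤ h) :
    ∫ ω, ‖WS (Set.range a) b h N ω‖ ^ 2 ∂Pm ≤
      N + (N : ℝ) ^ 2 * (1 / 2) ^ s +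
        2 * N * ((Finset.range N).filter (fun M => ¬ Good a b h s M)).card := by
  set A := Set.range a with hA
  have hint : ∀ m n : ℕ, Integrable (fun ω => ee (((h : ℝ) * ((b : ℝ) ^ m - (b : ℝ) ^ n)) * X A ω)) Pm := by
    intro m n
    apply Integrable.of_bound (C := 1)
    · exact (continuous_ee.measurable.comp ((measurable_X A).const_mul _)).aestronglyMeasurable
    · exact ae_of_all _ fun ω => (norm_ee _).le
  have h1 : ((∫ ω, ‖WS A b h N ω‖ ^ 2 ∂Pm : ℝ) : ℂ) = ∑ m ∈ Finset.range N, ∑ n ∈ Finset.range N,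
      ∫ ω, ee (((h : ℝ) * ((b : ℝ) ^ m - (b : ℝ) ^ n)) * X A ω) ∂Pm := by
    rw [← integral_complex_ofReal]
    rw [integral_congr_ae (ae_of_all _ fun ω => sq_WS A b h N ω)]
    rw [integral_finsetSum _ fun m _ => integrable_finsetSum _ fun n _ => hint m n]
    refine Finset.sum_congr rfl fun m _ => ?_
    rw [integral_finsetSum _ fun n _ => hint m n]
  have h2 : ∫ ω, ‖WS A b h N ω‖ ^ 2 ∂Pm ≤ ∑ m ∈ Finset.range N, ∑ n ∈ Finset.range N,
      ‖∫ ω, ee (((h : ℝ) * ((b : ℝ) ^ m - (b : ℝ) ^ n)) * X A ω) ∂Pm‖ := by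
    have e1 : ∫ ω, ‖WS A b h N ω‖ ^ 2 ∂Pm = ‖((∫ ω, ‖WS A b h N ω‖ ^ 2 ∂Pm : ℝ) : ℂ)‖ := by
      rw [Complex.norm_real, Real.norm_of_nonneg (integral_nonneg fun ω => by positivity)]
    rw [e1, h1]
    refine (norm_sum_le _ _).trans (Finset.sum_le_sum fun m _ => norm_sum_le _ _)
  refine h2.trans ?_
  refine (Finset.sum_le_sum fun m _ => Finset.sum_le_sum fun n _ => pair_bound ha s hb hh m n).trans ?_
  have e2 : ∀ m ∈ Finset.range N, ∑ n ∈ Finset.range N, (if m = n then (1 : ℝ) else 0) = 1 := by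
    intro m hm
    rw [Finset.sum_ite_eq, if_pos hm]
  have e3 : ∑ m ∈ Finset.range N, (if ¬ Good a b h s m then (1 : ℝ) else 0) =
      ((Finset.range N).filter (fun M => ¬ Good a b h s M)).card := by
    rw [Finset.sum_boole]
  simp only [Finset.sum_add_distrib]
  rw [Finset.sum_congr rfl e2]
  simp only [Finset.sum_const, Finset.card_range, nsmul_eq_mul, e3, ← Finset.mul_sum]
  apply le_of_eq
  ring

theorem ae_weyl {a : ℕ → ℕ} (ha : StrictMono a) (ha4 : ∀ k, (k + 1) ^ 4 ≤ a k) {b h : ℕ}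
    (hb : 2 ≤ b) (hh : 1 ≤ h) :
    ∀ᵐ ω ∂Pm, Tendsto (fun N : ℕ => ‖WS (Set.range a) b h N ω‖ / (N : ℝ)) atTop (𝓝 0) := by
  classical
  set A := Set.range a with hA
  set C : ℝ := (((a 0 + 1 + b) + (2 * h + b + 1) * (2 * h + 2) : ℕ) : ℝ) with hC
  have h1 : ∀ᵐ ω ∂Pm, Tendsto (fun j : ℕ => (‖WS A b h ((j + 1) ^ 4) ω‖ / (((j + 1 : ℕ) : ℝ) ^ 4)) ^ 2) atTop (𝓝 0) := by
    refine ae_tendsto_of_summable (c := fun j : ℕ => 1 / (((j + 1 : ℕ) : ℝ) ^ 2) + (1 / 2 : ℝ) ^ (j + 1) +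
        2 * C * (1 / (((j + 1 : ℕ) : ℝ) ^ 2))) ?_ ?_ ?_ ?_ ?_
    · intro j
      exact (((measurable_WS A b h _).norm).div_const _).pow_const 2
    · intro j ω
      positivity
    · intro j
      apply Integrable.of_bound (C := 1)
      · exact ((((measurable_WS A b h _).norm).div_const _).pow_const 2).aestronglyMeasurable
      · refine ae_of_all _ fun ω => ?_
        rw [Real.norm_of_nonneg (by positivity)]
        apply pow_le_one₀ (by positivity)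
        rw [div_le_one (by positivity)]
        have := norm_WS_le A b h ((j + 1) ^ 4) ω
        push_cast at this ⊢
        exact this
    · have e1 : Summable fun j : ℕ => 1 / (((j + 1 : ℕ) : ℝ) ^ 2) :=
        (summable_nat_add_iff 1).2 (Real.summable_one_div_nat_pow.2 (by norm_num : 1 < 2))
      have e2 : Summable fun j : ℕ => (1 / 2 : ℝ) ^ (j + 1) :=
        (summable_nat_add_iff 1).2 (summable_geometric_of_lt_one (by norm_num) (by norm_num))
      exact (e1.add e2).add (e1.mul_left _)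
    · intro j
      set i := j + 1 with hi
      have hi1 : 1 ≤ i := by omega
      have hiR : (1 : ℝ) ≤ i := by exact_mod_cast hi1
      have e1 := second_moment ha (b := b) (h := h) i (i ^ 4) hb hh
      have e2 := card_bad_four ha ha4 (b := b) (h := h) (j := i) hb hi1
      have e3 : (((Finset.range (i ^ 4)).filter (fun M => ¬ Good a b h i M)).card : ℝ) ≤ C * (i : ℝ) ^ 2 := by
        rw [hC]
        exact_mod_cast e2
      have hi4 : (0 : ℝ) < (i : ℝ) ^ 4 := by positivity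
      simp only [div_pow]
      rw [integral_div]
      rw [div_le_iff₀ (by positivity)]
      refine e1.trans ?_
      push_cast
      have e4 : 2 * (i : ℝ) ^ 4 * (((Finset.range (i ^ 4)).filter (fun M => ¬ Good a b h i M)).card : ℝ) ≤
          2 * (i : ℝ) ^ 4 * (C * (i : ℝ) ^ 2) := by gcongr
      have e5 : (i : ℝ) ^ 4 ≤ (i : ℝ) ^ 6 := pow_le_pow_right₀ hiR (by norm_num)
      have e6 : (1 / (i : ℝ) ^ 2 + (1 / 2 : ℝ) ^ i / 1 ^ 0 + 2 * C * (1 / (i : ℝ) ^ 2)) * ((i : ℝ) ^ 4) ^ 2 =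
          (i : ℝ) ^ 6 + ((i : ℝ) ^ 4) ^ 2 * (1 / 2) ^ i + 2 * (i : ℝ) ^ 4 * (C * (i : ℝ) ^ 2) := by
        field_simp
      have e7 : (1 / (i : ℝ) ^ 2 + (1 / 2 : ℝ) ^ i + 2 * C * (1 / (i : ℝ) ^ 2)) * ((i : ℝ) ^ 4) ^ 2 =
          (1 / (i : ℝ) ^ 2 + (1 / 2 : ℝ) ^ i / 1 ^ 0 + 2 * C * (1 / (i : ℝ) ^ 2)) * ((i : ℝ) ^ 4) ^ 2 := by
        norm_num
      have e8 : (1 / 2 : ℝ) ^ i = 1 / 2 ^ i := by rw [one_div, inv_pow, one_div]
      have e9 : (1 / (i : ℝ) ^ 2 + 1 ^ i / 2 ^ i + 2 * C * (1 / (i : ℝ) ^ 2)) * ((i : ℝ) ^ 4) ^ 2 =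
          (1 / (i : ℝ) ^ 2 + (1 / 2 : ℝ) ^ i + 2 * C * (1 / (i : ℝ) ^ 2)) * ((i : ℝ) ^ 4) ^ 2 := by
        rw [div_pow]
      rw [e9, e7, e6]
      linarith
  filter_upwards [h1] with ω hω
  apply interp
  · intro n
    unfold WS
    rw [Finset.sum_range_succ, add_sub_cancel_left, norm_ee]
  · have h2 : Tendsto (fun j : ℕ => ‖WS A b h ((j + 1) ^ 4) ω‖ / (((j + 1 : ℕ) : ℝ) ^ 4)) atTop (𝓝 0) := by
      have h3 := (Real.continuous_sqrt.tendsto 0).comp hω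
      rw [Real.sqrt_zero] at h3
      refine h3.congr fun j => ?_
      simp only [Function.comp]
      exact Real.sqrt_sq (by positivity)
    exact (tendsto_add_atTop_iff_nat (f := fun j : ℕ => ‖WS A b h (j ^ 4) ω‖ / ((j : ℝ) ^ 4)) 1).1 h2

end Pool.Agent.N245.UN
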