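import Mathlib
import Pool.Agent.N245.UN.Ball
import Pool.Agent.N245.UN.Weyl
import Pool.Agent.N245.UN.Digits

/-! # Assembly -/

set_option autoImplicit false

open MeasureTheory Filter Topology ProbabilityTheory
open scoped ENNReal

namespace Pool.Agent.N245.UN

open Pool.Agent.H534R3.UDist

theorem exists_places {φ : ℝ → ℝ} (hpos : ∀ r : ℝ, 0 < r → 0 < φ r)
    (hlim : Tendsto (fun r : ℝ => r / φ r) (𝓝[>] (0:ℝ)) (𝓝 0)) :
    ∃ a : ℕ → ℕ, StrictMono a ∧ (∀ k, (k + 1) ^ 4 ≤ a k) ∧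
      ∀ k, ∀ r : ℝ, 0 < r → r ≤ 1 / 2 ^ (a k) → 2 ^ (k + 1) * r ≤ φ r := by
  have h1 : ∀ k : ℕ, ∃ D : ℕ, ∀ r : ℝ, 0 < r → r ≤ 1 / 2 ^ D → 2 ^ (k + 1) * r ≤ φ r := by
    intro k
    have h2 : ∀ᶠ r in 𝓝[>] (0 : ℝ), r / φ r < 1 / 2 ^ (k + 1) :=
      hlim.eventually_lt_const (by positivity)
    rw [eventually_nhdsWithin_iff, Metric.eventually_nhds_iff] at h2
    obtain ⟨δ, hδ, h3⟩ := h2
    obtain ⟨D, hD⟩ := exists_pow_lt_of_lt_one hδ (by norm_num : (1 / 2 : ℝ) < 1)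
    refine ⟨D, fun r hr hrD => ?_⟩
    rw [one_div, inv_pow, ← one_div] at hD
    have h4 := h3 (y := r) (by
      rw [Real.dist_eq, sub_zero, abs_of_pos hr]
      linarith) hr
    rw [div_lt_div_iff₀ (hpos r hr) (by positivity)] at h4
    linarith
  choose D hD using h1
  refine ⟨fun k => ∑ i ∈ Finset.range (k + 1), (D i + (i + 1) ^ 4), ?_, ?_, ?_⟩
  · apply strictMono_nat_of_lt_succ
    intro k
    rw [Finset.sum_range_succ _ (k + 1)]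
    have : 0 < (k + 1 + 1) ^ 4 := by positivity
    omega
  · intro k
    have h2 : D k + (k + 1) ^ 4 ≤ ∑ i ∈ Finset.range (k + 1), (D i + (i + 1) ^ 4) :=
      Finset.single_le_sum (f := fun i => D i + (i + 1) ^ 4) (fun _ _ => Nat.zero_le _)
        (Finset.mem_range.2 (Nat.lt_succ_self k))
    show (k + 1) ^ 4 ≤ ∑ i ∈ Finset.range (k + 1), (D i + (i + 1) ^ 4)
    omega
  · intro k r hr hrk
    apply hD k r hr
    refine hrk.trans ?_
    rw [one_div_le_one_div (by positivity) (by positivity)]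
    apply pow_le_pow_right₀ (by norm_num)
    show D k ≤ ∑ i ∈ Finset.range (k + 1), (D i + (i + 1) ^ 4)
    have h2 : D k + (k + 1) ^ 4 ≤ ∑ i ∈ Finset.range (k + 1), (D i + (i + 1) ^ 4) :=
      Finset.single_le_sum (f := fun i => D i + (i + 1) ^ 4) (fun _ _ => Nat.zero_le _)
        (Finset.mem_range.2 (Nat.lt_succ_self k))
    omega

theorem normal_of_ud {x : ℝ} {b : ℕ} (hb : 2 ≤ b) (hx : UD fun n => (b : ℝ) ^ n * x) (k : ℕ)
    (w : Fin k → ℤ) (hw : ∀ j : Fin k, 0 ≤ w j ∧ w j < (b:ℤ)) :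
    Tendsto (fun N : ℕ =>
      ((((Finset.range N).filter (fun i : ℕ =>
        ∀ j : Fin k, ⌊x * (b:ℝ) ^ (i + j.val + 1)⌋ % (b:ℤ) = w j)).card : ℝ) / (N:ℝ)))
      atTop (𝓝 (1 / (b:ℝ) ^ k)) := by
  obtain ⟨c, hc0, hc1, hc⟩ := digits_iff x (by omega : 0 < b) k w hw
  have hbp : (0 : ℝ) < (b : ℝ) ^ k := by positivity
  have hc0' : (0 : ℝ) ≤ c := by exact_mod_cast hc0
  have hc1' : (c : ℝ) + 1 ≤ (b : ℝ) ^ k := by exact_mod_cast hc1
  have h1 := hx ((c : ℝ) / (b : ℝ) ^ k) (((c : ℝ) + 1) / (b : ℝ) ^ k) (by positivity)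
    (by
      rw [div_le_div_iff_of_pos_right hbp]
      linarith)
    (by
      rw [div_le_one hbp]
      exact hc1')
  have h2 : ((c : ℝ) + 1) / (b : ℝ) ^ k - (c : ℝ) / (b : ℝ) ^ k = 1 / (b : ℝ) ^ k := by
    rw [← sub_div]
    ring
  rw [h2] at h1
  refine h1.congr fun N => ?_
  congr 2
  congr 1
  apply Finset.filter_congr
  intro i _
  exact (hc i).symm

theorem ae_normal {a : ℕ → ℕ} (ha : StrictMono a) (ha4 : ∀ k, (k + 1) ^ 4 ≤ a k) :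
    ∀ᵐ ω ∂Pm, ∀ b : ℕ, 2 ≤ b → UD fun n => (b : ℝ) ^ n * X (Set.range a) ω := by
  have h1 : ∀ᵐ ω ∂Pm, ∀ b h : ℕ, 2 ≤ b → 1 ≤ h →
      Tendsto (fun N : ℕ => ‖WS (Set.range a) b h N ω‖ / (N : ℝ)) atTop (𝓝 0) := by
    rw [ae_all_iff]
    intro b
    rw [ae_all_iff]
    intro h
    by_cases hb : 2 ≤ b
    · by_cases hh : 1 ≤ h
      · filter_upwards [ae_weyl ha ha4 hb hh] with ω hω _ _
        exact hω
      · exact ae_of_all _ fun ω _ h2 => absurd h2 hh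
    · exact ae_of_all _ fun ω h2 => absurd h2 hb
  filter_upwards [h1] with ω hω b hb
  apply ud_of_weyl
  intro h hh
  exact hω b h hb hh

theorem main (φ : ℝ → ℝ) (hpos : ∀ r : ℝ, 0 < r → 0 < φ r)
    (hlim : Tendsto (fun r : ℝ => r / φ r) (𝓝[>] (0:ℝ)) (𝓝 0)) :
      ∃ K : Set ℝ, IsClosed K ∧ K ⊆ Set.Icc (0:ℝ) 1 ∧
        (∀ c : ℤ → ℂ,
          (∀ x : ℝ, (∀ m : ℤ, x + (m:ℝ) ∉ K) →
            Tendsto (fun N : ℕ => ∑ n ∈ Finset.Icc (-(N:ℤ)) (N:ℤ),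
              c n * Complex.exp (2 * (Real.pi:ℂ) * Complex.I * (n:ℂ) * (x:ℂ))) atTop (𝓝 0)) →
          ∀ n : ℤ, c n = 0) ∧
        0 < MeasureTheory.Measure.mkMetric (fun r : ℝ≥0∞ => ENNReal.ofReal (φ r.toReal))
          (K ∩ {x : ℝ | ∀ b : ℕ, 2 ≤ b → ∀ k : ℕ, ∀ w : Fin k → ℤ,
            (∀ j : Fin k, 0 ≤ w j ∧ w j < (b:ℤ)) →
            Tendsto (fun N : ℕ =>
              ((((Finset.range N).filter (fun i : ℕ =>
                ∀ j : Fin k, ⌊x * (b:ℝ) ^ (i + j.val + 1)⌋ % (b:ℤ) = w j)).card : ℝ) / (N:ℝ)))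
              atTop (𝓝 (1 / (b:ℝ) ^ k))}) := by
  obtain ⟨a, ha, ha4, hφ⟩ := exists_places hpos hlim
  refine ⟨KK a, isClosed_KK a, KK_subset a, fun c hc n => uniq ha hc n, ?_⟩
  apply mk_pos ha _ hφ
  · filter_upwards [ae_normal ha ha4] with ω hω
    refine ⟨X_mem a ω, ?_⟩
    intro b hb k w hw
    exact normal_of_ud hb (hω b hb) k w hw
  · intro k
    refine le_trans ?_ (ha4 k)
    have h1 : (k + 1) ^ 2 ≤ (k + 1) ^ 4 := Nat.pow_le_pow_right (by omega) (by norm_num)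
    nlinarith

end Pool.Agent.N245.UN
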